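import Pool.Agent.Q256.EC.Stm

/-! # Project EC, job WEC: the dominating term of a sequence which is an exponential polynomial
up to an error -/

set_option autoImplicit false

namespace Pool.Agent.Q68.EC

open Pool.Agent.Q256.EC

theorem wec_const {K : Type} [NormedField K] {q : ℝ} {g : ℕ → K} (h : An q g) :
    ∃ C : ℝ, 0 ≤ C ∧ ∀ n, ‖g n‖ ≤ C := by
  obtain ⟨C, hC⟩ := h
  refine ⟨|C|, abs_nonneg _, fun n => ?_⟩
  have h1 := hC 0 n
  rw [pow_zero, mul_one] at h1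
  exact h1.trans (le_abs_self C)

/-- **WEC** -/
theorem wec (hE : S_EXC) : S_WEC := by
  classical
  intro K _ _ q m hq hq1 hm hU ρ s hρ hW c
  obtain ⟨e, he, C0, hC0⟩ := hW
  obtain ⟨T, b, hT, hAn, hb0, hsum⟩ := hE K q m hq hq1 hm hU e he c
  choose D hD0 hD using fun r => wec_const (hAn r)
  have hs : ∀ n, ‖s (c + m * n) - e (c + m * n)‖ ≤ |C0| * ρ ^ c * ρ ^ (m * n) := by
    intro n
    refine (hC0 _).trans ?_
    rw [pow_add, ← mul_assoc]
    have h1 : C0 ≤ |C0| := le_abs_self _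
    have h2 : 0 ≤ ρ ^ c := pow_nonneg hρ.le _
    have h3 : 0 ≤ ρ ^ (m * n) := pow_nonneg hρ.le _
    exact mul_le_mul_of_nonneg_right (mul_le_mul_of_nonneg_right h1 h2) h3
  by_cases hcase : ∀ r ∈ T, ρ < r → ∀ n, b r n = 0
  · left
    refine ⟨∑ r ∈ T, D r + |C0| * ρ ^ c, fun n => ?_⟩
    have h1 : ‖e (c + m * n)‖ ≤ (∑ r ∈ T, D r) * ρ ^ (m * n) := by
      rw [hsum, Finset.sum_mul]
      refine (norm_sum_le _ _).trans (Finset.sum_le_sum fun r hr => ?_)
      rcases le_or_gt r ρ with h | h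
      · rw [norm_mul, norm_pow, (hT r hr).2, mul_comm]
        exact mul_le_mul (hD r n) (pow_le_pow_left₀ (hT r hr).1.le h _)
          (pow_nonneg (hT r hr).1.le _) (hD0 r)
      · rw [hcase r hr h n, mul_zero, norm_zero]
        exact mul_nonneg (hD0 r) (pow_nonneg hρ.le _)
    calc ‖s (c + m * n)‖ = ‖e (c + m * n) + (s (c + m * n) - e (c + m * n))‖ := by
          congr 1
          ring
      _ ≤ ‖e (c + m * n)‖ + ‖s (c + m * n) - e (c + m * n)‖ := norm_add_le _ _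
      _ ≤ (∑ r ∈ T, D r) * ρ ^ (m * n) + |C0| * ρ ^ c * ρ ^ (m * n) := add_le_add h1 (hs n)
      _ = (∑ r ∈ T, D r + |C0| * ρ ^ c) * ρ ^ (m * n) := by ring
  · right
    push Not at hcase
    obtain ⟨r0, hr0T, hr0, n0, hn0⟩ := hcase
    obtain ⟨R, hRT, hRρ, hRn, hle⟩ : ∃ R ∈ T, ρ < R ∧ (∃ n, b R n ≠ 0) ∧
        ∀ r ∈ T, (∃ n, b r n ≠ 0) → r ≤ R := by
      have hne : (T.filter fun r => ρ < r ∧ ∃ n, b r n ≠ 0).Nonempty :=
        ⟨r0, Finset.mem_filter.2 ⟨hr0T, hr0, n0, hn0⟩⟩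
      have hRm := (T.filter fun r => ρ < r ∧ ∃ n, b r n ≠ 0).max'_mem hne
      obtain ⟨hRT, hRρ, hRn⟩ := Finset.mem_filter.1 hRm
      refine ⟨_, hRT, hRρ, hRn, ?_⟩
      intro r hr hn
      rcases le_or_gt r ρ with h | h
      · exact h.trans hRρ.le
      · exact (T.filter fun r => ρ < r ∧ ∃ n, b r n ≠ 0).le_max' r
          (Finset.mem_filter.2 ⟨hr, h, hn⟩)
    have hR0 : 0 < R := (hT R hRT).1
    obtain ⟨ε, hε0, hε1, hερ, hεr⟩ : ∃ ε : ℝ, 0 < ε ∧ ε < 1 ∧ ρ / R ≤ ε ∧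
        ∀ r ∈ T, r < R → r / R ≤ ε := by
      obtain ⟨E, hE'⟩ : ∃ E : Finset ℝ,
          E = insert (ρ / R) ((T.filter fun r => r < R).image fun r => r / R) := ⟨_, rfl⟩
      have hmem : ρ / R ∈ E := by
        rw [hE']
        exact Finset.mem_insert_self _ _
      have hmem2 : ∀ r ∈ T, r < R → r / R ∈ E := by
        intro r hr h
        rw [hE', Finset.mem_insert, Finset.mem_image]
        exact Or.inr ⟨r, Finset.mem_filter.2 ⟨hr, h⟩, rfl⟩
      have key : ∀ x ∈ E, x < 1 := by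
        intro x hx
        rw [hE', Finset.mem_insert, Finset.mem_image] at hx
        rcases hx with hx | ⟨r, hr, hx⟩
        · rw [hx, div_lt_one hR0]
          exact hRρ
        · rw [← hx, div_lt_one hR0]
          exact (Finset.mem_filter.1 hr).2
      have hEne : E.Nonempty := ⟨_, hmem⟩
      exact ⟨E.max' hEne, (div_pos hρ hR0).trans_le (E.le_max' _ hmem),
        key _ (E.max'_mem hEne), E.le_max' _ hmem, fun r hr h => E.le_max' _ (hmem2 r hr h)⟩
    have hpow : ∀ x : ℝ, 0 ≤ x → x ≤ ε → ∀ n : ℕ, x ^ (m * n) ≤ ε ^ n := by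
      intro x hx hxε n
      calc x ^ (m * n) ≤ ε ^ (m * n) := pow_le_pow_left₀ hx hxε _
        _ ≤ ε ^ n := pow_le_pow_of_le_one hε0.le hε1.le (Nat.le_mul_of_pos_left n hm)
    have hπ : ‖piK K R‖ = R := (hT R hRT).2
    have hπ0 : piK K R ≠ 0 := by
      intro h
      rw [h, norm_zero] at hπ
      exact hR0.ne hπ
    refine ⟨((piK K R) ^ m)⁻¹, b R, ε, ∑ r ∈ T, D r + |C0| * ρ ^ c,
      inv_ne_zero (pow_ne_zero _ hπ0), hAn R, hRn, hε0, hε1, fun n => ?_⟩
    have hPn : piK K R ^ (m * n) ≠ 0 := pow_ne_zero _ hπ0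
    have hν : ((piK K R ^ m)⁻¹) ^ n = (piK K R ^ (m * n))⁻¹ := by
      rw [inv_pow, ← pow_mul]
    have hdec : s (c + m * n) * ((piK K R ^ m)⁻¹) ^ n - b R n =
        (s (c + m * n) - e (c + m * n)) * (piK K R ^ (m * n))⁻¹ +
          ∑ r ∈ T.erase R, piK K r ^ (m * n) * b r n * (piK K R ^ (m * n))⁻¹ := by
      have h1 : ∑ r ∈ T.erase R, piK K r ^ (m * n) * b r n * (piK K R ^ (m * n))⁻¹ =
          e (c + m * n) * (piK K R ^ (m * n))⁻¹ - b R n := by
        rw [← Finset.sum_mul, hsum, ← Finset.add_sum_erase T _ hRT, add_mul]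
        have h2 : piK K R ^ (m * n) * b R n * (piK K R ^ (m * n))⁻¹ = b R n := by
          field_simp
        rw [h2]
        ring
      rw [h1, hν]
      ring
    have hfin1 : ‖(s (c + m * n) - e (c + m * n)) * (piK K R ^ (m * n))⁻¹‖ ≤
        |C0| * ρ ^ c * ε ^ n := by
      rw [norm_mul, norm_inv, norm_pow, hπ]
      calc ‖s (c + m * n) - e (c + m * n)‖ * (R ^ (m * n))⁻¹
          ≤ (|C0| * ρ ^ c * ρ ^ (m * n)) * (R ^ (m * n))⁻¹ :=
            mul_le_mul_of_nonneg_right (hs n) (inv_nonneg.2 (pow_nonneg hR0.le _))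
        _ = |C0| * ρ ^ c * (ρ / R) ^ (m * n) := by rw [div_pow]; ring
        _ ≤ |C0| * ρ ^ c * ε ^ n :=
            mul_le_mul_of_nonneg_left (hpow _ (div_nonneg hρ.le hR0.le) hερ n)
              (mul_nonneg (abs_nonneg _) (pow_nonneg hρ.le _))
    have hfin2 : ‖∑ r ∈ T.erase R, piK K r ^ (m * n) * b r n * (piK K R ^ (m * n))⁻¹‖ ≤
        (∑ r ∈ T, D r) * ε ^ n := by
      rw [Finset.sum_mul]
      refine (norm_sum_le _ _).trans ((Finset.sum_le_sum fun r hr => ?_).trans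
        (Finset.sum_le_sum_of_subset_of_nonneg (f := fun r => D r * ε ^ n) (Finset.erase_subset R T)
          fun r _ _ => mul_nonneg (hD0 r) (pow_nonneg hε0.le _)))
      obtain ⟨hrR, hrT⟩ := Finset.mem_erase.1 hr
      by_cases hbr : ∃ k, b r k ≠ 0
      · have hlt : r < R := lt_of_le_of_ne (hle r hrT hbr) hrR
        have hr0' : 0 < r := (hT r hrT).1
        rw [norm_mul, norm_mul, norm_inv, norm_pow, norm_pow, hπ, (hT r hrT).2]
        calc r ^ (m * n) * ‖b r n‖ * (R ^ (m * n))⁻¹ = ‖b r n‖ * (r / R) ^ (m * n) := by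
              rw [div_pow]
              ring
          _ ≤ D r * ε ^ n :=
              mul_le_mul (hD r n) (hpow _ (div_nonneg hr0'.le hR0.le) (hεr r hrT hlt) n)
                (pow_nonneg (div_nonneg hr0'.le hR0.le) _) (hD0 r)
      · push Not at hbr
        rw [hbr n, mul_zero, zero_mul, norm_zero]
        exact mul_nonneg (hD0 r) (pow_nonneg hε0.le _)
    rw [hdec]
    refine (norm_add_le _ _).trans ((add_le_add hfin1 hfin2).trans (le_of_eq ?_))
    ring

end Pool.Agent.Q68.EC
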