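import Pool.Agent.Q256.UI.Stm

set_option autoImplicit false

namespace Pool.Agent.Q68.UI

open Finset Pool.Agent.Q256.UI

/-- covering by windows. -/
theorem wnd : S_WND := by
  intro S T L M hL hLT hM hS hX
  have hT : 0 < T := lt_of_lt_of_le hL hLT
  obtain ⟨n, hn⟩ : ∃ n : ℕ, n = ⌈T / L⌉₊ := ⟨_, rfl⟩
  have hn1 : (n : ℝ) < T / L + 1 := by
    rw [hn]; exact Nat.ceil_lt_add_one (by positivity)
  have hTL : (1 : ℝ) ≤ T / L := by rwa [le_div_iff₀ hL, one_mul]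
  have hn0 : 1 ≤ n := by
    rw [hn, Nat.one_le_iff_ne_zero]
    have : 0 < ⌈T / L⌉₊ := Nat.ceil_pos.2 (by linarith)
    omega
  have hsub : S ⊆ ⋃ i ∈ Finset.range n,
      {p : ℤ × ℤ | p ∈ S ∧ T + (i : ℝ) * L ≤ p.1 ∧ (p.1 : ℝ) ≤ T + (i : ℝ) * L + L} := by
    intro p hp
    obtain ⟨h1, h2⟩ := hS p hp
    rw [Set.mem_iUnion₂]
    obtain ⟨k, hk⟩ : ∃ k : ℕ, k = ⌈((p.1 : ℝ) - T) / L⌉₊ := ⟨_, rfl⟩
    have hk1 : ((p.1 : ℝ) - T) / L ≤ k := by rw [hk]; exact Nat.le_ceil _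
    have hk2 : (k : ℝ) < ((p.1 : ℝ) - T) / L + 1 := by
      rw [hk]
      exact Nat.ceil_lt_add_one (div_nonneg (by linarith) hL.le)
    have hk3 : k ≤ n := by
      rw [hk, hn]
      apply Nat.ceil_le_ceil
      apply div_le_div_of_nonneg_right _ hL.le
      linarith
    rw [div_le_iff₀ hL] at hk1
    have hk4 : (k : ℝ) * L < ((p.1 : ℝ) - T) + L := by
      have := mul_lt_mul_of_pos_right hk2 hL
      rw [add_mul, div_mul_cancel₀ _ hL.ne', one_mul] at this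
      exact this
    rcases Nat.eq_zero_or_pos k with h0 | h0
    · refine ⟨0, mem_range.2 (by omega), hp, ?_, ?_⟩
      · simpa using h1
      · rw [h0] at hk1
        simp only [CharP.cast_eq_zero, zero_mul, add_zero] at hk1 ⊢
        linarith
    · refine ⟨k - 1, mem_range.2 (by omega), hp, ?_, ?_⟩
      · rw [Nat.cast_sub (by omega)]
        push_cast
        linarith
      · rw [Nat.cast_sub (by omega)]
        push_cast
        linarith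
  have hfin : (⋃ i ∈ Finset.range n,
      {p : ℤ × ℤ | p ∈ S ∧ T + (i : ℝ) * L ≤ p.1 ∧ (p.1 : ℝ) ≤ T + (i : ℝ) * L + L}).Finite :=
    (Finset.finite_toSet _).biUnion fun i _ => (hX (T + (i : ℝ) * L)).1
  refine ⟨hfin.subset hsub, ?_⟩
  have h1 : S.ncard ≤ ∑ i ∈ Finset.range n,
      ({p : ℤ × ℤ | p ∈ S ∧ T + (i : ℝ) * L ≤ p.1 ∧ (p.1 : ℝ) ≤ T + (i : ℝ) * L + L}).ncard :=
    (Set.ncard_le_ncard hsub hfin).trans (Finset.set_ncard_biUnion_le _ _)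
  have h2 : (S.ncard : ℝ) ≤ ∑ i ∈ Finset.range n, M := by
    have h3 : (S.ncard : ℝ) ≤ ((∑ i ∈ Finset.range n,
      ({p : ℤ × ℤ | p ∈ S ∧ T + (i : ℝ) * L ≤ p.1 ∧
        (p.1 : ℝ) ≤ T + (i : ℝ) * L + L}).ncard : ℕ) : ℝ) := by exact_mod_cast h1
    refine h3.trans ?_
    rw [Nat.cast_sum]
    exact sum_le_sum fun i _ => (hX (T + (i : ℝ) * L)).2
  rw [sum_const, card_range, nsmul_eq_mul] at h2
  have h4 : (n : ℝ) * M ≤ (2 * (T / L)) * M := mul_le_mul_of_nonneg_right (by linarith) hM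
  calc (S.ncard : ℝ) ≤ (n : ℝ) * M := h2
    _ ≤ (2 * (T / L)) * M := h4
    _ = 2 * M * (T / L) := by ring

end Pool.Agent.Q68.UI
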