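import Pool.Agent.Q256.UI.Stm

set_option autoImplicit false

namespace Pool.Agent.Q68.UI

open Finset MvPolynomial Pool.Agent.Q256.UI
open Pool.Agent.Q256.UP (PBox)

private lemma tdeg {d H : ℕ} {Φ F : MvPolynomial (Fin 2) ℤ} (hL : Lead d Φ)
    (hF : F ∈ Fam Φ d H) : F.totalDegree ≤ d := by
  obtain ⟨G, hG, rfl⟩ := hF
  refine (totalDegree_add _ _).trans (max_le hL.hom.totalDegree_le ?_)
  exact hG.1.trans (by omega)

/-- the bound for `H` large. -/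
private lemma core (hcm : S_CM) (hfam : S_FAM) (hdeg : S_DEG) (htay : S_TAY) {d : ℕ}
    {Φ : MvPolynomial (Fin 2) ℤ} {Θ : Finset ℝ} {A : ℝ} (hd : 7 ≤ d) (hL : Lead d Φ)
    (hP : Pkg d Φ Θ A) {C H0 : ℝ} (hC : 1 ≤ C)
    (hc : ∀ (H T W θ : ℝ) (a : ℕ → ℕ → ℝ),
      H0 ≤ H → H ^ (d - 3) ≤ T → Bd d A H a → Lio d A θ → 0 ≤ W → W ≤ A * H * T ^ (d - 4) →
      1 / 4 < |rho d a| →
      (Ap d a θ A H T W).Finite ∧ ((Ap d a θ A H T W).ncard : ℝ) ≤ C * H ^ ((2 : ℝ) / 3))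
    {H T : ℕ} (hH1 : 1 ≤ H) (hHA : A ≤ H) (hH0 : H0 ≤ H) (hT : (d * H) ^ (d - 3) ≤ T) :
    (Nat.card {F | F ∈ ZR Φ d H T (2 * T) ∧ ∀ θ ∈ Θ, 1 / 4 < |rho d (tc F θ)|} : ℝ) *
      ((H : ℝ) + 1) ^ (d - 3) ≤
      (#Θ * (C * (((d - 2) * H : ℕ) : ℝ) ^ ((2 : ℝ) / 3))) *
        ((2 * ((d - 2) * H) + 1 : ℕ) : ℝ) ^ NN d := by
  have hdH : 1 ≤ d * H := Nat.one_le_iff_ne_zero.2 (by positivity)
  have hTbig : (d * H) ^ 2 ≤ T := (Nat.pow_le_pow_right hdH (by omega)).trans hT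
  have hA0 : 0 ≤ A := by
    have := hP.one
    have h2 : (0 : ℝ) ≤ (d : ℝ) * 4 ^ d := by positivity
    linarith
  have hTH : H + 1 ≤ T := by
    have h1 : d * H ≤ (d * H) ^ 2 := Nat.le_self_pow (by norm_num) _
    nlinarith
  have hm3 : d - 4 + 1 = d - 3 := by omega
  have hm2 : H + (d - 3) * H = (d - 2) * H := by
    have : d - 2 = (d - 3) + 1 := by omega
    rw [this]; ring
  obtain ⟨H', hH'⟩ : ∃ H' : ℕ, H' = (d - 2) * H := ⟨_, rfl⟩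
  have hH'1 : 1 ≤ H' := by
    rw [hH']; exact Nat.one_le_iff_ne_zero.2 (Nat.mul_ne_zero (by omega) (by omega))
  have hH'H : H ≤ H' := by rw [hH']; exact Nat.le_mul_of_pos_left _ (by omega)
  have hH'd : H' ≤ d * H := by rw [hH']; exact Nat.mul_le_mul_right _ (by omega)
  obtain ⟨Reg, hReg⟩ : ∃ Reg : Set (ℤ × ℤ), Reg = {p | (T : ℤ) ≤ p.1 ∧ p.1 ≤ ((2 * T : ℕ) : ℤ) ∧
    |p.2| ≤ p.1} := ⟨_, rfl⟩
  obtain ⟨B, hB⟩ : ∃ B : Set (MvPolynomial (Fin 2) ℤ), B = {F | F ∈ Fam Φ d H' ∧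
    ∀ θ ∈ Θ, 1 / 4 < |rho d (tc F θ)|} := ⟨_, rfl⟩
  obtain ⟨V, hV⟩ : ∃ V : Set (MvPolynomial (Fin 2) ℤ), V = {F | F ∈ ZR Φ d H T (2 * T) ∧
    ∀ θ ∈ Θ, 1 / 4 < |rho d (tc F θ)|} := ⟨_, rfl⟩
  have hBfin : B.Finite := by
    rw [hB]; exact ((hfam.1 Φ d H' (by omega)).1).subset fun F hF => hF.1
  have hBcard : Nat.card B ≤ (2 * H' + 1) ^ NN d := by
    rw [← (hfam.1 Φ d H' (by omega)).2]
    have : Finite (Fam Φ d H') := (hfam.1 Φ d H' (by omega)).1.to_subtype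
    rw [hB]
    exact Nat.card_mono (hfam.1 Φ d H' (by omega)).1 fun F hF => hF.1
  -- the points
  have hpts : ∀ F ∈ B, {p : ℤ × ℤ | p ∈ Reg ∧ |eval ![p.1, p.2] F| ≤
      ((d - 4 : ℕ) + 1) * H * |p.1| ^ (d - 4)} ⊆
      ⋃ θ ∈ Θ, Ap d (tc F θ) θ A H' T (A * H' * (T : ℝ) ^ (d - 4)) := by
    intro F hF p hp
    rw [hB] at hF
    obtain ⟨hF1, hF2⟩ := hF
    obtain ⟨hpR, hpv⟩ := hp
    rw [hReg] at hpR
    obtain ⟨g1, g2, g3⟩ := hpR
    have g1R : (T : ℝ) ≤ (p.1 : ℝ) := by exact_mod_cast g1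
    have g2R : (p.1 : ℝ) ≤ 2 * T := by
      have : (p.1 : ℝ) ≤ ((2 * T : ℕ) : ℝ) := by exact_mod_cast g2
      push_cast at this; exact this
    have hT1 : (1 : ℝ) ≤ T := by
      have : 1 ≤ T := by omega
      exact_mod_cast this
    have hx0 : (0 : ℝ) < p.1 := by linarith
    have hx0' : (0 : ℤ) ≤ p.1 := by omega
    have hev : |ev F (p.1 : ℝ) (p.2 : ℝ)| ≤ ((d - 4 : ℕ) + 1) * H * (p.1 : ℝ) ^ (d - 4) := by
      rw [htay.2 F p.1 p.2, ← Int.cast_abs]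
      rw [abs_of_nonneg hx0'] at hpv
      exact_mod_cast hpv
    have hAH : A * (H' : ℝ) ≤ (p.1 : ℝ) := by
      have h1 : A * (H' : ℝ) ≤ H * (d * H : ℕ) :=
        mul_le_mul hHA (by exact_mod_cast hH'd) (by positivity) (by positivity)
      have h2 : H * (d * H) ≤ T := by
        refine le_trans ?_ hTbig
        rw [pow_two]
        exact Nat.mul_le_mul_right _ (Nat.le_mul_of_pos_left _ (by omega))
      have h3 : ((H * (d * H) : ℕ) : ℝ) ≤ T := by exact_mod_cast h2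
      push_cast at h1 h3
      linarith
    have hd4 : (((d - 4 : ℕ) : ℝ) + 1) ≤ d := by
      have : d - 4 + 1 ≤ d := by omega
      exact_mod_cast this
    have hHR : (H : ℝ) ≤ (H' : ℝ) := by exact_mod_cast hH'H
    obtain ⟨θ, hθ, hθ2⟩ := hP.near H' hH'1 F hF1 p.1 p.2 hAH g3 (by
      refine hev.trans ?_
      have h2 : (p.1 : ℝ) ^ (d - 4) ≤ (p.1 : ℝ) ^ (d - 1) :=
        pow_le_pow_right₀ (by linarith) (by omega)
      have h1 : (((d - 4 : ℕ) : ℝ) + 1) ≤ (d : ℝ) * 2 ^ d :=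
        hd4.trans (le_mul_of_one_le_right (by positivity) (one_le_pow₀ (by norm_num)))
      exact mul_le_mul (mul_le_mul h1 hHR (by positivity) (by positivity)) h2 (by positivity)
        (by positivity))
    rw [Set.mem_iUnion₂]
    refine ⟨θ, hθ, g1R, g2R, hθ2, ?_⟩
    have h5 : Q d (tc F θ) (p.1 : ℝ) ((p.2 : ℝ) - θ * p.1) = ev F (p.1 : ℝ) (p.2 : ℝ) := by
      rw [← htay.1 d F θ _ _ (tdeg hL hF1)]
      congr 1
      ring
    rw [h5]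
    refine hev.trans ?_
    have h6 : (p.1 : ℝ) ^ (d - 4) ≤ 2 ^ d * (T : ℝ) ^ (d - 4) := by
      calc (p.1 : ℝ) ^ (d - 4) ≤ (2 * T) ^ (d - 4) := pow_le_pow_left₀ hx0.le g2R _
        _ = 2 ^ (d - 4) * (T : ℝ) ^ (d - 4) := mul_pow _ _ _
        _ ≤ 2 ^ d * (T : ℝ) ^ (d - 4) := mul_le_mul_of_nonneg_right
            (pow_le_pow_right₀ (by norm_num) (by omega)) (by positivity)
    have h7 : (d : ℝ) * 2 ^ d ≤ A := by
      refine le_trans ?_ hP.one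
      exact mul_le_mul_of_nonneg_left (pow_le_pow_left₀ (by norm_num) (by norm_num) _)
        (by positivity)
    calc ((d - 4 : ℕ) + 1) * (H : ℝ) * (p.1 : ℝ) ^ (d - 4)
        ≤ (d * H') * (2 ^ d * (T : ℝ) ^ (d - 4)) :=
          mul_le_mul (mul_le_mul hd4 hHR (by positivity) (by positivity)) h6 (by positivity)
            (by positivity)
      _ = ((d : ℝ) * 2 ^ d) * (H' * (T : ℝ) ^ (d - 4)) := by ring
      _ ≤ A * (H' * (T : ℝ) ^ (d - 4)) := mul_le_mul_of_nonneg_right h7 (by positivity)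
      _ = A * H' * (T : ℝ) ^ (d - 4) := by ring
  have hAp : ∀ F ∈ B, ∀ θ ∈ Θ,
      (Ap d (tc F θ) θ A H' T (A * H' * (T : ℝ) ^ (d - 4))).Finite ∧
      ((Ap d (tc F θ) θ A H' T (A * H' * (T : ℝ) ^ (d - 4))).ncard : ℝ) ≤
        C * (H' : ℝ) ^ ((2 : ℝ) / 3) := by
    intro F hF θ hθ
    rw [hB] at hF
    apply hc H' T _ θ (tc F θ)
    · exact hH0.trans (by exact_mod_cast hH'H)
    · have : H' ^ (d - 3) ≤ T := (Nat.pow_le_pow_left hH'd _).trans hT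
      exact_mod_cast this
    · exact hP.bd θ hθ H' hH'1 F hF.1
    · exact hP.lio θ hθ
    · positivity
    · exact le_rfl
    · exact hF.2 θ hθ
  obtain ⟨M, hM⟩ : ∃ M : ℕ, M = ⌊(#Θ : ℝ) * (C * (H' : ℝ) ^ ((2 : ℝ) / 3))⌋₊ := ⟨_, rfl⟩
  have hMle : (M : ℝ) ≤ (#Θ : ℝ) * (C * (H' : ℝ) ^ ((2 : ℝ) / 3)) := by
    rw [hM]; exact Nat.floor_le (by positivity)
  have hmain := hcm d H (d - 4) M Φ Reg V B ?_ ?_ hBfin ?_ ?_ ?_
  · rw [hm3] at hmain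
    have h1 : Nat.card V * (H + 1) ^ (d - 3) ≤ M * (2 * H' + 1) ^ NN d :=
      hmain.trans (Nat.mul_le_mul_left _ hBcard)
    have h2 : (Nat.card V : ℝ) * ((H : ℝ) + 1) ^ (d - 3) ≤ (M : ℝ) * ((2 * H' + 1 : ℕ) : ℝ) ^ NN d := by
      exact_mod_cast h1
    rw [hV] at h2
    rw [hH'] at h2 hMle
    refine h2.trans ?_
    exact mul_le_mul_of_nonneg_right hMle (by positivity)
  · intro p hp
    rw [hReg] at hp
    have h1 := hp.1
    rw [abs_of_nonneg (by omega)]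
    have : ((H + 1 : ℕ) : ℤ) ≤ T := by exact_mod_cast hTH
    push_cast at this
    linarith
  · intro F hF
    rw [hV] at hF
    exact hF.1.1
  · intro F hF
    rw [hV] at hF
    obtain ⟨x, y, h1, h2, h3, h4⟩ := hF.1.2
    refine ⟨(x, y), ?_, h4⟩
    rw [hReg]
    exact ⟨h1, h2, h3⟩
  · intro F hF G hG
    rw [hV] at hF
    rw [hB]
    refine ⟨?_, fun θ hθ => ?_⟩
    · have h1 := hfam.2 Φ d H (d - 4) ((d - 4 + 1) * H) (by omega) F hF.1.1 G hG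
      rw [hm3, hm2, ← hH'] at h1
      exact h1
    · rw [hdeg.1 d F G θ (by omega) (hG.1.trans (by omega))]
      exact hF.2 θ hθ
  · intro F hF
    have hfin : (⋃ θ ∈ Θ, Ap d (tc F θ) θ A H' T (A * H' * (T : ℝ) ^ (d - 4))).Finite :=
      (Finset.finite_toSet _).biUnion fun θ hθ => (hAp F hF θ hθ).1
    refine ⟨hfin.subset (hpts F hF), ?_⟩
    rw [hM]
    apply Nat.le_floor
    have h1 := (Set.ncard_le_ncard (hpts F hF) hfin).trans (Finset.set_ncard_biUnion_le _ _)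
    have h2 : (({p : ℤ × ℤ | p ∈ Reg ∧ |eval ![p.1, p.2] F| ≤
      ((d - 4 : ℕ) + 1) * H * |p.1| ^ (d - 4)}.ncard : ℕ) : ℝ) ≤
      ((∑ θ ∈ Θ, (Ap d (tc F θ) θ A H' T (A * H' * (T : ℝ) ^ (d - 4))).ncard : ℕ) : ℝ) := by
      exact_mod_cast h1
    refine h2.trans ?_
    rw [Nat.cast_sum]
    refine (sum_le_sum fun θ hθ => (hAp F hF θ hθ).2).trans ?_
    rw [sum_const, nsmul_eq_mul]

/-- the nondegenerate polynomials. -/
theorem bgn : S_CND → S_CM → S_FAM → S_DEG → S_TAY → S_BGN := by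
  intro hcnd hcm hfam hdeg htay d Φ Θ A hd hL hP
  have hA1 : (1 : ℝ) ≤ A := by
    refine le_trans ?_ hP.one
    have h1 : (1 : ℝ) ≤ d := by exact_mod_cast (by omega : 1 ≤ d)
    exact one_le_mul_of_one_le_of_one_le h1 (one_le_pow₀ (by norm_num))
  obtain ⟨C, H0, hC, hH0, hc⟩ := hcnd d A hd hA1
  have hNN : (28 : ℝ) ≤ NN d := by
    have h1 : (8 : ℕ).choose 2 ≤ (d + 1).choose 2 := Nat.choose_le_choose 2 (by omega)
    have h2 : (8 : ℕ).choose 2 = 28 := by decide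
    unfold NN
    rw [h2] at h1
    exact_mod_cast h1
  obtain ⟨K1, hK1⟩ : ∃ K1 : ℝ, K1 = (#Θ * (C * d)) * (2 * (d : ℝ)) ^ NN d := ⟨_, rfl⟩
  have hK1' : 0 ≤ K1 := by rw [hK1]; positivity
  obtain ⟨K2, hK2⟩ : ∃ K2 : ℝ, K2 = (2 * (A + H0) + 1) ^ NN d := ⟨_, rfl⟩
  have hK2' : 0 ≤ K2 := by rw [hK2]; positivity
  refine ⟨1 + K1 + K2, by linarith, fun H T hH hT => ?_⟩
  have hHR : (1 : ℝ) ≤ H := by exact_mod_cast hH
  have hH0' : (0 : ℝ) < H := by linarith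
  have hpow1 : (1 : ℝ) ≤ (H : ℝ) ^ ((NN d : ℝ) - 10 / 3) := Real.one_le_rpow hHR (by linarith)
  by_cases hbig : A ≤ H ∧ H0 ≤ H
  · have h1 := core hcm hfam hdeg htay hd hL hP hC hc hH hbig.1 hbig.2 hT
    have hd1 : (1 : ℝ) ≤ d := by exact_mod_cast (by omega : 1 ≤ d)
    -- estimates
    have e1 : (H : ℝ) ^ (4 : ℝ) ≤ ((H : ℝ) + 1) ^ (d - 3) := by
      rw [show (4 : ℝ) = ((4 : ℕ) : ℝ) by norm_num, Real.rpow_natCast]
      calc (H : ℝ) ^ 4 ≤ ((H : ℝ) + 1) ^ 4 := pow_le_pow_left₀ hH0'.le (by linarith) 4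
        _ ≤ ((H : ℝ) + 1) ^ (d - 3) := pow_le_pow_right₀ (by linarith) (by omega)
    have e2 : (((d - 2) * H : ℕ) : ℝ) ^ ((2 : ℝ) / 3) ≤ d * (H : ℝ) ^ ((2 : ℝ) / 3) := by
      have g1 : (((d - 2) * H : ℕ) : ℝ) ≤ (d : ℝ) * H := by
        have : (d - 2) * H ≤ d * H := Nat.mul_le_mul_right _ (by omega)
        exact_mod_cast this
      refine (Real.rpow_le_rpow (by positivity) g1 (by norm_num)).trans ?_
      rw [Real.mul_rpow (by positivity) (by positivity)]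
      refine mul_le_mul_of_nonneg_right ?_ (by positivity)
      calc (d : ℝ) ^ ((2 : ℝ) / 3) ≤ (d : ℝ) ^ (1 : ℝ) :=
            Real.rpow_le_rpow_of_exponent_le hd1 (by norm_num)
        _ = d := Real.rpow_one _
    have e3 : ((2 * ((d - 2) * H) + 1 : ℕ) : ℝ) ^ NN d ≤ (2 * (d : ℝ)) ^ NN d * (H : ℝ) ^ NN d := by
      rw [← mul_pow]
      refine pow_le_pow_left₀ (by positivity) ?_ _
      have : 2 * ((d - 2) * H) + 1 ≤ 2 * d * H := by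
        obtain ⟨e, rfl⟩ : ∃ e, d = e + 2 := ⟨d - 2, by omega⟩
        rw [Nat.add_sub_cancel]
        nlinarith
      exact_mod_cast this
    have h2 : (Nat.card {F | F ∈ ZR Φ d H T (2 * T) ∧ ∀ θ ∈ Θ, 1 / 4 < |rho d (tc F θ)|} : ℝ) *
        (H : ℝ) ^ (4 : ℝ) ≤ K1 * (H : ℝ) ^ ((NN d : ℝ) - 10 / 3) * (H : ℝ) ^ (4 : ℝ) := by
      calc (Nat.card {F | F ∈ ZR Φ d H T (2 * T) ∧ ∀ θ ∈ Θ, 1 / 4 < |rho d (tc F θ)|} : ℝ) *
          (H : ℝ) ^ (4 : ℝ) ≤ (Nat.card {F | F ∈ ZR Φ d H T (2 * T) ∧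
            ∀ θ ∈ Θ, 1 / 4 < |rho d (tc F θ)|} : ℝ) * ((H : ℝ) + 1) ^ (d - 3) :=
            mul_le_mul_of_nonneg_left e1 (by positivity)
        _ ≤ _ := h1
        _ ≤ (#Θ * (C * (d * (H : ℝ) ^ ((2 : ℝ) / 3)))) *
            ((2 * (d : ℝ)) ^ NN d * (H : ℝ) ^ NN d) := by
            refine mul_le_mul ?_ e3 (by positivity) (by positivity)
            exact mul_le_mul_of_nonneg_left (mul_le_mul_of_nonneg_left e2 (by linarith))
              (by positivity)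
        _ = K1 * ((H : ℝ) ^ ((2 : ℝ) / 3) * (H : ℝ) ^ (NN d : ℝ)) := by
            rw [hK1, Real.rpow_natCast]; ring
        _ = K1 * (H : ℝ) ^ ((NN d : ℝ) - 10 / 3) * (H : ℝ) ^ (4 : ℝ) := by
            rw [← Real.rpow_add hH0', mul_assoc, ← Real.rpow_add hH0']
            congr 2
            ring
    have h3 := le_of_mul_le_mul_right h2 (by positivity)
    refine h3.trans ?_
    exact mul_le_mul_of_nonneg_right (by linarith) (by positivity)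
  · have hHle : (H : ℝ) ≤ A + H0 := by
      by_contra hcon
      push Not at hcon
      exact hbig ⟨by linarith, by linarith⟩
    have h1 : Nat.card {F | F ∈ ZR Φ d H T (2 * T) ∧ ∀ θ ∈ Θ, 1 / 4 < |rho d (tc F θ)|} ≤
        (2 * H + 1) ^ NN d := by
      rw [← (hfam.1 Φ d H (by omega)).2]
      exact Nat.card_mono (hfam.1 Φ d H (by omega)).1 fun F hF => hF.1.1
    have h2 : (Nat.card {F | F ∈ ZR Φ d H T (2 * T) ∧ ∀ θ ∈ Θ, 1 / 4 < |rho d (tc F θ)|} : ℝ) ≤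
        K2 := by
      have h3 : (Nat.card {F | F ∈ ZR Φ d H T (2 * T) ∧ ∀ θ ∈ Θ, 1 / 4 < |rho d (tc F θ)|} : ℝ) ≤
        (2 * (H : ℝ) + 1) ^ NN d := by exact_mod_cast h1
      refine h3.trans ?_
      rw [hK2]
      exact pow_le_pow_left₀ (by positivity) (by linarith) _
    refine h2.trans ?_
    calc K2 ≤ (1 + K1 + K2) * 1 := by linarith
      _ ≤ (1 + K1 + K2) * (H : ℝ) ^ ((NN d : ℝ) - 10 / 3) :=
        mul_le_mul_of_nonneg_left hpow1 (by linarith)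

end Pool.Agent.Q68.UI
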