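import Pool.Agent.Q256.UI.Stm

set_option autoImplicit false

namespace Pool.Agent.Q68.UI

open Finset Pool.Agent.Q256.UI

private lemma one_le_abs {a b : ℤ} (h : a ≠ b) : (1 : ℝ) ≤ |(a : ℝ) - b| := by
  have h1 : (1 : ℤ) ≤ |a - b| := Int.one_le_abs (sub_ne_zero.2 h)
  have h2 : ((1 : ℤ) : ℝ) ≤ ((|a - b| : ℤ) : ℝ) := by exact_mod_cast h1
  rw [Int.cast_abs, Int.cast_sub] at h2
  simpa using h2

/-- no three points in a window. -/
theorem two : S_DD3 → S_SPC → S_COL → S_TWO := by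
  intro h3 hs hc d A hd hA
  obtain ⟨C3, hC3, h3⟩ := h3 d A (by omega) hA
  obtain ⟨C1, hC1, hs⟩ := hs d A (by omega) hA
  obtain ⟨c, C2, hc0, hC2, hc⟩ := hc d A (by omega) hA
  obtain ⟨K, hK⟩ : ∃ K : ℝ, K = 8 * C3 * A := ⟨_, rfl⟩
  have hK0 : 0 < K := by rw [hK]; positivity
  refine ⟨c, 8 * C3 + C1 + C2 + C1 ^ 2 * K ^ d + 1, hc0, ?_, ?_⟩
  · have : 0 ≤ C1 ^ 2 * K ^ d := by positivity
    linarith
  intro H T W L θ a hH hHT hBd hLio hW0 hW hL0 hL hrho p hp q hq r hr hpq hqr hrp npq nqr nrp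
  have hE : 0 ≤ C1 ^ 2 * K ^ d := by positivity
  have hH1 : 1 ≤ H := by linarith
  have hH0 : 0 < H := by linarith
  have hT4 : H ^ 4 ≤ T := (pow_le_pow_right₀ hH1 (by omega)).trans hHT
  have hHH : H ^ 2 ≤ H ^ 4 := pow_le_pow_right₀ hH1 (by omega)
  have hT1 : 1 ≤ T := by
    have : 1 ≤ H ^ 4 := one_le_pow₀ hH1
    linarith
  have hT0 : 0 < T := by linarith
  have key : ∀ C : ℝ, C ≤ H → C * H ≤ T := by
    intro C hC
    have : C * H ≤ H * H := mul_le_mul_of_nonneg_right hC hH0.le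
    nlinarith
  have hW3 : W ≤ A * H * T ^ (d - 3) := by
    refine hW.trans ?_
    apply mul_le_mul_of_nonneg_left _ (by positivity)
    exact pow_le_pow_right₀ hT1 (by omega)
  obtain ⟨e1, f1⟩ := hs H T W θ a hH1 (key _ (by linarith)) hBd hLio hW0 hW3 p hp q hq npq
  obtain ⟨e2, f2⟩ := hs H T W θ a hH1 (key _ (by linarith)) hBd hLio hW0 hW3 q hq r hr nqr
  obtain ⟨e3, f3⟩ := hs H T W θ a hH1 (key _ (by linarith)) hBd hLio hW0 hW3 r hr p hp nrp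
  have hdet := hc H T W L θ a hH1 (key _ (by linarith)) hBd hLio hW0 hW3 hL0 hL p hp q hq r hr
    hpq hqr hrp
  have hdetR : ((p.2 : ℝ)) * ((q.1 : ℝ) - r.1) + q.2 * ((r.1 : ℝ) - p.1) +
      r.2 * ((p.1 : ℝ) - q.1) = 0 := by exact_mod_cast hdet
  obtain ⟨b, hb1, hb2, hb3, hb4, hb5⟩ : ∃ b : ℝ, 1 ≤ b ∧ b ≤ |(p.1 : ℝ) - q.1| ∧
      b ≤ |(q.1 : ℝ) - r.1| ∧ b ≤ |(r.1 : ℝ) - p.1| ∧ T ^ 2 ≤ C1 * H ^ 2 * b ^ d := by
    have g1 := one_le_abs e1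
    have g2 := one_le_abs e2
    have g3 := one_le_abs e3
    rcases le_total |(p.1 : ℝ) - q.1| |(q.1 : ℝ) - r.1| with h12 | h12
    · rcases le_total |(p.1 : ℝ) - q.1| |(r.1 : ℝ) - p.1| with h13 | h13
      · exact ⟨_, g1, le_rfl, h12, h13, f1⟩
      · exact ⟨_, g3, h13, h13.trans h12, le_rfl, f3⟩
    · rcases le_total |(q.1 : ℝ) - r.1| |(r.1 : ℝ) - p.1| with h23 | h23
      · exact ⟨_, g2, h12, le_rfl, h23, f2⟩
      · exact ⟨_, g3, h23.trans h12, h23, le_rfl, f3⟩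
  have hb0 : 0 < b := by linarith
  have hr3 := h3 H T W b a hH1 (key _ (by linarith)) hBd hW0 hW3 hb1 (p.1 : ℝ) (q.1 : ℝ) (r.1 : ℝ)
    ((p.2 : ℝ) - θ * p.1) ((q.2 : ℝ) - θ * q.1) ((r.2 : ℝ) - θ * r.1)
    hp.1 hp.2.1 hq.1 hq.2.1 hr.1 hr.2.1 hb2 hb3 hb4 hp.2.2.1 hq.2.2.1 hr.2.2.1
    hp.2.2.2 hq.2.2.2 hr.2.2.2 (by linear_combination hdetR)
  -- the two terms
  have t1 : H ^ 3 / T ≤ 1 / H := by
    rw [div_le_div_iff₀ hT0 hH0]
    have : H ^ 3 * H = H ^ 4 := by ring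
    rw [this, one_mul]; exact hT4
  have t2 : W * T ^ 3 / (T ^ (d - 1) * b ^ 2) ≤ A * H / b ^ 2 := by
    rw [div_le_div_iff₀ (by positivity) (by positivity)]
    have e : T ^ (d - 1) = T ^ (d - 4) * T ^ 3 := by rw [← pow_add]; congr 1; omega
    rw [e]
    have : W * T ^ 3 ≤ A * H * T ^ (d - 4) * T ^ 3 := mul_le_mul_of_nonneg_right hW (by positivity)
    nlinarith [mul_le_mul_of_nonneg_right this (by positivity : (0 : ℝ) ≤ b ^ 2)]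
  have t3 : C3 * (1 / H) ≤ 1 / 8 := by
    rw [mul_one_div, div_le_div_iff₀ hH0 (by norm_num)]
    linarith
  have t4 : 1 / 8 < C3 * (A * H / b ^ 2) := by
    have h5 : |rho d a| ≤ C3 * (1 / H) + C3 * (A * H / b ^ 2) := by
      refine hr3.trans ?_
      rw [← mul_add]
      exact mul_le_mul_of_nonneg_left (add_le_add t1 t2) (by linarith)
    linarith
  have t5 : b ^ 2 < K * H := by
    have hb2' : 0 < b ^ 2 := by positivity
    rw [← mul_div_assoc, lt_div_iff₀ hb2'] at t4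
    rw [hK]
    nlinarith
  have t6 : T ^ 4 ≤ C1 ^ 2 * H ^ 4 * (K * H) ^ d := by
    have h6 : (T ^ 2) ^ 2 ≤ (C1 * H ^ 2 * b ^ d) ^ 2 :=
      pow_le_pow_left₀ (by positivity) hb5 2
    have h7 : (b ^ 2) ^ d ≤ (K * H) ^ d := pow_le_pow_left₀ (by positivity) t5.le d
    calc T ^ 4 = (T ^ 2) ^ 2 := by ring
      _ ≤ (C1 * H ^ 2 * b ^ d) ^ 2 := h6
      _ = C1 ^ 2 * H ^ 4 * (b ^ 2) ^ d := by ring
      _ ≤ C1 ^ 2 * H ^ 4 * (K * H) ^ d := mul_le_mul_of_nonneg_left h7 (by positivity)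
  have t7 : (H ^ (d - 3)) ^ 4 ≤ T ^ 4 := pow_le_pow_left₀ (by positivity) hHT 4
  have t8 : H ^ (3 * d - 16) * H ^ (d + 4) ≤ (C1 ^ 2 * K ^ d) * H ^ (d + 4) := by
    have e1 : H ^ (3 * d - 16) * H ^ (d + 4) = (H ^ (d - 3)) ^ 4 := by
      rw [← pow_add, ← pow_mul]; congr 1; omega
    have e2 : (C1 ^ 2 * K ^ d) * H ^ (d + 4) = C1 ^ 2 * H ^ 4 * (K * H) ^ d := by
      rw [mul_pow, pow_add]; ring
    rw [e1, e2]
    exact t7.trans t6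
  have t9 : H ^ (3 * d - 16) ≤ C1 ^ 2 * K ^ d := le_of_mul_le_mul_right t8 (by positivity)
  have t10 : H ≤ H ^ (3 * d - 16) := le_self_pow₀ hH1 (by omega)
  linarith

end Pool.Agent.Q68.UI
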