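import Mathlib

/-! Shifts of product measures: invariance and strong mixing. -/

open MeasureTheory ProbabilityTheory Filter Topology Set
open scoped ENNReal symmDiff

namespace Q68.Bern

variable {ι X : Type*} [MeasurableSpace X]

/-- The relabelling of coordinates. -/
def sh (τ : ι → ι) : (ι → X) → (ι → X) := fun x i => x (τ i)

omit [MeasurableSpace X] in
lemma sh_iter (τ : ι → ι) (n : ℕ) : (sh τ : (ι → X) → (ι → X))^[n] = sh (τ^[n]) := by
  induction n with
  | zero => rfl
  | succ n ih =>
    rw [Function.iterate_succ, ih]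
    funext x i
    simp only [Function.comp, sh]
    rw [← Function.iterate_succ_apply' τ n i]

lemma measurable_sh (τ : ι → ι) : Measurable (sh τ : (ι → X) → (ι → X)) :=
  measurable_pi_lambda _ fun i => measurable_pi_apply (τ i)

variable (μ : Measure X) [IsProbabilityMeasure μ]

lemma mp_sh {τ : ι → ι} (h : Function.Injective τ) :
    MeasurePreserving (sh τ : (ι → X) → (ι → X)) (Measure.infinitePi (fun _ : ι => μ))
      (Measure.infinitePi (fun _ : ι => μ)) := by
  classical
  refine ⟨measurable_sh τ, ?_⟩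
  apply Measure.eq_infinitePi
  intro s t ht
  rw [Measure.map_apply (measurable_sh τ) (MeasurableSet.pi s.countable_toSet fun i _ => ht i)]
  by_cases hne : s.Nonempty
  · obtain ⟨i0, -⟩ := hne
    have : Nonempty ι := ⟨i0⟩
    have e : (sh τ : (ι → X) → (ι → X)) ⁻¹' (Set.pi s t) =
        Set.pi (s.image τ) (fun j => t (Function.invFun τ j)) := by
      ext x
      simp only [sh, Set.mem_preimage, Set.mem_pi, Finset.coe_image, Set.mem_image,
        Finset.mem_coe]
      constructor
      · rintro hx j ⟨i, hi, rfl⟩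
        rw [Function.leftInverse_invFun h i]
        exact hx i hi
      · intro hx i hi
        have := hx (τ i) ⟨i, hi, rfl⟩
        rwa [Function.leftInverse_invFun h i] at this
    rw [e, Measure.infinitePi_pi _ (fun i _ => ht _), Finset.prod_image (fun a _ b _ hab => h hab)]
    refine Finset.prod_congr rfl fun i _ => ?_
    rw [Function.leftInverse_invFun h i]
  · rw [Finset.not_nonempty_iff_eq_empty] at hne
    subst hne
    simp

/-- cylinders over disjoint sets of coordinates are independent -/
lemma indep_cyl {I J : Finset ι} (hIJ : Disjoint I J) {S : Set (I → X)} {S' : Set (J → X)}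
    (hS : MeasurableSet S) (hS' : MeasurableSet S') :
    Measure.infinitePi (fun _ : ι => μ) (cylinder I S ∩ cylinder J S') =
      Measure.infinitePi (fun _ : ι => μ) (cylinder I S) *
      Measure.infinitePi (fun _ : ι => μ) (cylinder J S') := by
  have h1 : iIndepFun (fun (i : ι) (ω : ι → X) => ω i) (Measure.infinitePi (fun _ : ι => μ)) :=
    iIndepFun_infinitePi (X := fun _ x => x) (fun _ => measurable_id)
  have h2 := h1.indepFun_finset I J hIJ (fun i => measurable_pi_apply i)
  have h3 := h2.measure_inter_preimage_eq_mul S S' hS hS'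
  exact h3

lemma pre_cyl [DecidableEq ι] {τ : ι → ι} {I : Finset ι} {S : Set (I → X)}
    (hS : MeasurableSet S) : ∃ S' : Set (↥(I.image τ) → X), MeasurableSet S' ∧
      (sh τ : (ι → X) → (ι → X)) ⁻¹' (cylinder I S) = cylinder (I.image τ) S' := by
  have hm : Measurable (fun (y : ↥(I.image τ) → X) (i : I) =>
      y ⟨τ i, Finset.mem_image_of_mem τ i.2⟩) :=
    measurable_pi_lambda _ fun i => measurable_pi_apply _
  exact ⟨_, hm hS, rfl⟩

/-- Mixing on cylinders. -/
lemma mix_cyl {τ : ι → ι} (h : Function.Injective τ)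
    (hτ : ∀ i j, ∀ᶠ n in atTop, τ^[n] i ≠ j) {A B : Set (ι → X)}
    (hA : A ∈ measurableCylinders (fun _ : ι => X))
    (hB : B ∈ measurableCylinders (fun _ : ι => X)) :
    ∀ᶠ n in atTop, Measure.infinitePi (fun _ : ι => μ) ((sh τ)^[n] ⁻¹' A ∩ B) =
      Measure.infinitePi (fun _ : ι => μ) A * Measure.infinitePi (fun _ : ι => μ) B := by
  classical
  rw [mem_measurableCylinders] at hA hB
  obtain ⟨I, S, hS, rfl⟩ := hA
  obtain ⟨J, S', hS', rfl⟩ := hB
  have h1 : ∀ᶠ n in atTop, ∀ i ∈ I, ∀ j ∈ J, τ^[n] i ≠ j := by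
    rw [Filter.eventually_all_finset]
    intro i _
    rw [Filter.eventually_all_finset]
    intro j _
    exact hτ i j
  filter_upwards [h1] with n hn
  rw [sh_iter]
  obtain ⟨S2, hS2, e2⟩ := pre_cyl (τ := τ^[n]) (I := I) hS
  have hmp := mp_sh μ (h.iterate n)
  rw [← hmp.measure_preimage (s := cylinder I S)
    (MeasurableSet.nullMeasurableSet (MeasurableSet.cylinder I hS)), e2]
  apply indep_cyl μ _ hS2 hS'
  rw [Finset.disjoint_left]
  intro a ha ha'
  rw [Finset.mem_image] at ha
  obtain ⟨i, hi, rfl⟩ := ha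
  exact hn i hi _ ha' rfl

lemma abs_inter_sub_le {Ω : Type*} [MeasurableSpace Ω] (P : Measure Ω) [IsProbabilityMeasure P]
    {A B C D : Set Ω} : |P.real (A ∩ B) - P.real (C ∩ D)| ≤ P.real (A ∆ C) + P.real (B ∆ D) := by
  have key : ∀ A B C D : Set Ω, P.real (A ∩ B) - P.real (C ∩ D) ≤ P.real (A ∆ C) + P.real (B ∆ D) := by
    intro A B C D
    have : A ∩ B ⊆ (C ∩ D) ∪ ((A ∆ C) ∪ (B ∆ D)) := by
      rintro x ⟨h1, h2⟩
      by_cases hc : x ∈ C
      · by_cases hd : x ∈ D
        · exact Or.inl ⟨hc, hd⟩
        · exact Or.inr (Or.inr (Or.inl ⟨h2, hd⟩))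
      · exact Or.inr (Or.inl (Or.inl ⟨h1, hc⟩))
    have h2 := measureReal_mono (μ := P) this (measure_ne_top _ _)
    have h3 := measureReal_union_le (μ := P) (C ∩ D) ((A ∆ C) ∪ (B ∆ D))
    have h4 := measureReal_union_le (μ := P) (A ∆ C) (B ∆ D)
    linarith
  rw [abs_le]
  have h1 := key A B C D
  have h2 := key C D A B
  rw [symmDiff_comm C A, symmDiff_comm D B] at h2
  constructor <;> linarith

/-- Strong mixing of shifts of product measures. -/
theorem mixing {τ : ι → ι} (h : Function.Injective τ)
    (hτ : ∀ i j, ∀ᶠ n in atTop, τ^[n] i ≠ j) {A B : Set (ι → X)}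
    (hA : MeasurableSet A) (hB : MeasurableSet B) :
    Tendsto (fun n => Measure.infinitePi (fun _ : ι => μ) ((sh τ)^[n] ⁻¹' A ∩ B)) atTop
      (𝓝 (Measure.infinitePi (fun _ : ι => μ) A * Measure.infinitePi (fun _ : ι => μ) B)) := by
  set P : Measure (ι → X) := Measure.infinitePi (fun _ : ι => μ) with hP
  have dense : P.MeasureDense (measurableCylinders (fun _ : ι => X)) :=
    Measure.MeasureDense.of_generateFrom_isSetAlgebra_finite P isSetAlgebra_measurableCylinders
      generateFrom_measurableCylinders.symm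
  have hreal : Tendsto (fun n => P.real ((sh τ)^[n] ⁻¹' A ∩ B)) atTop (𝓝 (P.real A * P.real B)) := by
    rw [Metric.tendsto_atTop]
    intro ε hε
    obtain ⟨C, hC, hAC⟩ := dense.approx A hA (measure_ne_top _ _) (ε / 5) (by positivity)
    obtain ⟨D, hD, hBD⟩ := dense.approx B hB (measure_ne_top _ _) (ε / 5) (by positivity)
    have hAC' : P.real (A ∆ C) < ε / 5 := by
      rw [measureReal_def]
      exact (ENNReal.lt_ofReal_iff_toReal_lt (measure_ne_top _ _)).1 hAC
    have hBD' : P.real (B ∆ D) < ε / 5 := by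
      rw [measureReal_def]
      exact (ENNReal.lt_ofReal_iff_toReal_lt (measure_ne_top _ _)).1 hBD
    have hCm : MeasurableSet C := dense.measurable C hC
    obtain ⟨N, hN⟩ := eventually_atTop.1 (mix_cyl μ h hτ hC hD)
    refine ⟨N, fun n hn => ?_⟩
    have e1 : P.real ((sh τ)^[n] ⁻¹' C ∩ D) = P.real C * P.real D := by
      rw [measureReal_def, hN n hn, ENNReal.toReal_mul]; rfl
    have e2 : P.real (((sh τ)^[n] ⁻¹' A) ∆ ((sh τ)^[n] ⁻¹' C)) = P.real (A ∆ C) := by
      have hmp : MeasurePreserving ((sh τ)^[n]) P P := (mp_sh μ h).iterate n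
      rw [measureReal_def, measureReal_def, ← hmp.measure_preimage (s := A ∆ C)
        (hA.symmDiff hCm).nullMeasurableSet]
      rfl
    have e3 := abs_inter_sub_le P (A := (sh τ)^[n] ⁻¹' A) (B := B) (C := (sh τ)^[n] ⁻¹' C) (D := D)
    rw [e2, e1] at e3
    have e4 : |P.real A - P.real C| ≤ P.real (A ∆ C) := by
      have := abs_inter_sub_le P (A := A) (B := univ) (C := C) (D := univ)
      simpa using this
    have e5 : |P.real B - P.real D| ≤ P.real (B ∆ D) := by
      have := abs_inter_sub_le P (A := B) (B := univ) (C := D) (D := univ)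
      simpa using this
    have hC1 : P.real C ≤ 1 := measureReal_le_one
    have hC0 : 0 ≤ P.real C := measureReal_nonneg
    have hB1 : P.real B ≤ 1 := measureReal_le_one
    have hB0 : 0 ≤ P.real B := measureReal_nonneg
    have e6 : |P.real C * P.real D - P.real A * P.real B| ≤ P.real (A ∆ C) + P.real (B ∆ D) := by
      have : P.real C * P.real D - P.real A * P.real B =
        - (P.real C * (P.real B - P.real D)) - (P.real A - P.real C) * P.real B := by ring
      rw [this]
      calc |- (P.real C * (P.real B - P.real D)) - (P.real A - P.real C) * P.real B|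
          ≤ |- (P.real C * (P.real B - P.real D))| + |(P.real A - P.real C) * P.real B| :=
            abs_sub _ _
        _ = P.real C * |P.real B - P.real D| + |P.real A - P.real C| * P.real B := by
            rw [abs_neg, abs_mul, abs_mul, abs_of_nonneg hC0, abs_of_nonneg hB0]
        _ ≤ 1 * P.real (B ∆ D) + P.real (A ∆ C) * 1 := by gcongr
        _ = _ := by ring
    rw [Real.dist_eq]
    have := abs_sub_le (P.real ((sh τ)^[n] ⁻¹' A ∩ B)) (P.real C * P.real D) (P.real A * P.real B)
    linarith
  have := (ENNReal.tendsto_ofReal hreal)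
  rw [ENNReal.ofReal_mul measureReal_nonneg] at this
  simpa [ofReal_measureReal] using this

end Q68.Bern
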