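import Mathlib

/-! The maximal ergodic inequality and the pointwise ergodic theorem for integrable functions
and measure preserving maps which are not assumed to be ergodic. -/

open MeasureTheory Filter Topology Set

namespace Q68.PET

variable {X : Type*} [MeasurableSpace X] {μ : Measure X} {T : X → X}

/-- maximum of `0` and the first `n` ergodic sums -/
noncomputable def Mx (T : X → X) (g : X → ℝ) : ℕ → X → ℝ
  | 0, _ => 0
  | n + 1, x => max 0 (g x + Mx T g n (T x))

/-- ergodic sums -/
noncomputable def S (T : X → X) (g : X → ℝ) (n : ℕ) (x : X) : ℝ :=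
  ∑ i ∈ Finset.range n, g (T^[i] x)

omit [MeasurableSpace X] in
lemma S_succ (g : X → ℝ) (n : ℕ) (x : X) : S T g (n + 1) x = g x + S T g n (T x) := by
  unfold S
  rw [Finset.sum_range_succ']
  simp only [Function.iterate_zero, id_eq, Function.iterate_succ, Function.comp]
  ring

omit [MeasurableSpace X] in
lemma Mx_nonneg (g : X → ℝ) (n : ℕ) (x : X) : 0 ≤ Mx T g n x := by
  cases n with
  | zero => exact le_rfl
  | succ n => exact le_max_left _ _

omit [MeasurableSpace X] in
lemma S_le_Mx (g : X → ℝ) : ∀ (n k : ℕ), k ≤ n → ∀ x : X, S T g k x ≤ Mx T g n x := by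
  intro n
  induction n with
  | zero =>
    intro k hk x
    obtain rfl : k = 0 := by omega
    simp [S, Mx]
  | succ n ih =>
    intro k hk x
    rcases k with _ | k
    · simp only [S, Finset.range_zero, Finset.sum_empty]
      exact Mx_nonneg g _ x
    · rw [S_succ]
      exact (add_le_add_right (ih k (by omega) (T x)) (g x)).trans (le_max_right _ _)

omit [MeasurableSpace X] in
lemma Mx_mono_succ (g : X → ℝ) : ∀ (n : ℕ) (x : X), Mx T g n x ≤ Mx T g (n + 1) x := by
  intro n
  induction n with
  | zero => intro x; exact Mx_nonneg g _ x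
  | succ n ih =>
    intro x
    exact max_le_max le_rfl (add_le_add_right (ih (T x)) (g x))

omit [MeasurableSpace X] in
lemma Mx_mono (g : X → ℝ) (x : X) : Monotone fun n => Mx T g n x :=
  monotone_nat_of_le_succ fun n => Mx_mono_succ g n x

omit [MeasurableSpace X] in
lemma Mx_le_abs (g : X → ℝ) : ∀ (n : ℕ) (x : X), Mx T g n x ≤ S T (fun y => |g y|) n x := by
  intro n
  induction n with
  | zero => intro x; simp [Mx, S]
  | succ n ih =>
    intro x
    rw [S_succ]
    have h0 : 0 ≤ S T (fun y => |g y|) n (T x) := Finset.sum_nonneg fun i _ => abs_nonneg _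
    refine max_le (by positivity) (add_le_add (le_abs_self _) (ih (T x)))

lemma S_measurable (hT : Measurable T) {g : X → ℝ} (hg : Measurable g) (n : ℕ) :
    Measurable (S T g n) :=
  Finset.measurable_sum _ fun i _ => hg.comp (hT.iterate i)

lemma Mx_measurable (hT : Measurable T) {g : X → ℝ} (hg : Measurable g) (n : ℕ) :
    Measurable (Mx T g n) := by
  induction n with
  | zero => exact measurable_const
  | succ n ih => exact measurable_const.max (hg.add (ih.comp hT))

lemma S_integrable (hT : MeasurePreserving T μ μ) {g : X → ℝ} (hg : Integrable g μ) (n : ℕ) :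
    Integrable (S T g n) μ :=
  integrable_finsetSum _ fun i _ => (hT.iterate i).integrable_comp_of_integrable hg

lemma integral_comp_T (hT : MeasurePreserving T μ μ) {g : X → ℝ}
    (hg : AEStronglyMeasurable g μ) : ∫ x, g (T x) ∂μ = ∫ x, g x ∂μ := by
  have h := integral_map (μ := μ) hT.measurable.aemeasurable (f := g) (by rwa [hT.map_eq])
  rw [hT.map_eq] at h
  exact h.symm

lemma Mx_integrable (hT : MeasurePreserving T μ μ) {g : X → ℝ} (hgm : Measurable g)
    (hg : Integrable g μ) (n : ℕ) : Integrable (Mx T g n) μ := by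
  refine Integrable.mono' (S_integrable hT hg.abs n)
    (Mx_measurable hT.measurable hgm n).aestronglyMeasurable (Eventually.of_forall fun x => ?_)
  rw [Real.norm_of_nonneg (Mx_nonneg g n x)]
  exact Mx_le_abs g n x

/-- Maximal ergodic theorem (Hopf, Garsia). -/
theorem maximal (hT : MeasurePreserving T μ μ) {g : X → ℝ} (hgm : Measurable g)
    (hg : Integrable g μ) (n : ℕ) : 0 ≤ ∫ x in {x | 0 < Mx T g n x}, g x ∂μ := by
  have hE : MeasurableSet {x | 0 < Mx T g n x} :=
    measurableSet_lt measurable_const (Mx_measurable hT.measurable hgm n)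
  have hMi := Mx_integrable hT hgm hg n
  have hMTi : Integrable (fun x => Mx T g n (T x)) μ := hT.integrable_comp_of_integrable hMi
  have h1 : ∀ x ∈ {x | 0 < Mx T g n x}, Mx T g n x - Mx T g n (T x) ≤ g x := by
    intro x hx
    cases n with
    | zero => exact absurd (show (0 : ℝ) < 0 from hx) (lt_irrefl _)
    | succ n =>
      have hx' : 0 < max 0 (g x + Mx T g n (T x)) := hx
      have h2 : Mx T g (n + 1) x = g x + Mx T g n (T x) := by
        show max 0 (g x + Mx T g n (T x)) = _
        apply max_eq_right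
        by_contra hneg
        rw [max_eq_left (not_le.1 hneg).le] at hx'
        exact lt_irrefl _ hx'
      have h3 := Mx_mono_succ (T := T) g n (T x)
      rw [h2]
      linarith
  have h2 : ∫ x in {x | 0 < Mx T g n x}, (Mx T g n x - Mx T g n (T x)) ∂μ ≤
      ∫ x in {x | 0 < Mx T g n x}, g x ∂μ :=
    setIntegral_mono_on (hMi.sub hMTi).integrableOn hg.integrableOn hE h1
  refine le_trans ?_ h2
  rw [integral_sub hMi.integrableOn hMTi.integrableOn]
  have h3 : ∫ x in {x | 0 < Mx T g n x}, Mx T g n x ∂μ = ∫ x, Mx T g n x ∂μ := by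
    apply setIntegral_eq_integral_of_forall_compl_eq_zero
    intro x hx
    have : ¬ 0 < Mx T g n x := hx
    exact le_antisymm (not_lt.1 this) (Mx_nonneg g n x)
  have h4 : ∫ x in {x | 0 < Mx T g n x}, Mx T g n (T x) ∂μ ≤ ∫ x, Mx T g n (T x) ∂μ :=
    setIntegral_le_integral hMTi (Eventually.of_forall fun x => Mx_nonneg g n (T x))
  rw [integral_comp_T hT hMi.aestronglyMeasurable] at h4
  linarith

/-- weak type inequality for finitely many averages -/
theorem weak_type_fin [IsProbabilityMeasure μ] (hT : MeasurePreserving T μ μ) {f : X → ℝ}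
    (hfm : Measurable f) (hf : Integrable f μ) (hf0 : ∀ x, 0 ≤ f x) {c : ℝ} (hc : 0 < c) (n : ℕ) :
    μ.real {x | 0 < Mx T (fun y => f y - c) n x} ≤ (∫ x, f x ∂μ) / c := by
  have h := maximal hT (hfm.sub_const c) (hf.sub (integrable_const c)) n
  rw [integral_sub hf.integrableOn (integrable_const c).integrableOn] at h
  rw [setIntegral_const, smul_eq_mul] at h
  have h2 : ∫ x in {x | 0 < Mx T (fun y => f y - c) n x}, f x ∂μ ≤ ∫ x, f x ∂μ :=
    setIntegral_le_integral hf (Eventually.of_forall hf0)
  rw [le_div_iff₀ hc]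
  linarith

/-- Weak type (1,1) inequality. -/
theorem weak_type [IsProbabilityMeasure μ] (hT : MeasurePreserving T μ μ) {f : X → ℝ}
    (hfm : Measurable f) (hf : Integrable f μ) (hf0 : ∀ x, 0 ≤ f x) {c : ℝ} (hc : 0 < c) :
    μ.real {x | ∃ n : ℕ, (n : ℝ) * c < S T f n x} ≤ (∫ x, f x ∂μ) / c := by
  have hmono : Monotone fun n => {x | 0 < Mx T (fun y => f y - c) n x} := by
    intro n m hnm x hx
    exact lt_of_lt_of_le hx (Mx_mono _ x hnm)
  have hsub : {x | ∃ n : ℕ, (n : ℝ) * c < S T f n x} ⊆
      ⋃ n, {x | 0 < Mx T (fun y => f y - c) n x} := by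
    rintro x ⟨n, hn⟩
    refine mem_iUnion.2 ⟨n, ?_⟩
    have h1 := S_le_Mx (T := T) (fun y => f y - c) n n le_rfl x
    have h2 : S T (fun y => f y - c) n x = S T f n x - n * c := by
      unfold S
      rw [Finset.sum_sub_distrib]
      simp
    rw [h2] at h1
    have h3 : 0 < Mx T (fun y => f y - c) n x := by linarith
    exact h3
  have hlim : Tendsto (fun n => μ.real {x | 0 < Mx T (fun y => f y - c) n x}) atTop
      (𝓝 (μ.real (⋃ n, {x | 0 < Mx T (fun y => f y - c) n x}))) := by
    have := tendsto_measure_iUnion_atTop (μ := μ) hmono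
    exact (ENNReal.tendsto_toReal (measure_ne_top _ _)).comp this
  refine (measureReal_mono hsub (measure_ne_top _ _)).trans ?_
  exact le_of_tendsto' hlim fun n => weak_type_fin hT hfm hf hf0 hc n

/-- The set where the ergodic sums are unbounded above. -/
def unbdd (T : X → X) (g : X → ℝ) : Set X := {x | ∀ C : ℕ, ∃ n, (C : ℝ) < Mx T g n x}

omit [MeasurableSpace X] in
lemma unbdd_preimage (g : X → ℝ) : T ⁻¹' (unbdd T g) = unbdd T g := by
  ext x
  constructor
  · intro h C
    obtain ⟨D, hD⟩ := exists_nat_gt (C - g x)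
    obtain ⟨n, hn⟩ := h D
    refine ⟨n + 1, lt_of_lt_of_le ?_ (le_max_right _ _)⟩
    linarith
  · intro h C
    obtain ⟨D, hD⟩ := exists_nat_gt (C + |g x|)
    obtain ⟨n, hn⟩ := h D
    refine ⟨n, ?_⟩
    have h1 := Mx_mono_succ (T := T) g n x
    have h2 : (D : ℝ) < max 0 (g x + Mx T g n (T x)) := lt_of_lt_of_le hn h1
    have h3 : 0 ≤ |g x| := abs_nonneg _
    have h4 : (0 : ℝ) ≤ C := Nat.cast_nonneg _
    rcases lt_max_iff.1 h2 with h5 | h5
    · linarith
    · have := le_abs_self (g x)
      linarith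

lemma unbdd_measurable (hT : Measurable T) {g : X → ℝ} (hg : Measurable g) :
    MeasurableSet (unbdd T g) := by
  have : unbdd T g = ⋂ C : ℕ, ⋃ n, {x | (C : ℝ) < Mx T g n x} := by
    ext x
    simp [unbdd]
  rw [this]
  exact MeasurableSet.iInter fun C => MeasurableSet.iUnion fun n =>
    measurableSet_lt measurable_const (Mx_measurable hT hg n)

/-- the integral over the set where the sums are unbounded is nonnegative -/
theorem integral_unbdd_nonneg (hT : MeasurePreserving T μ μ) {g : X → ℝ} (hgm : Measurable g)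
    (hg : Integrable g μ) : 0 ≤ ∫ x in unbdd T g, g x ∂μ := by
  have hE := unbdd_measurable hT.measurable hgm
  have hMi := Mx_integrable hT hgm hg
  have hMTi : ∀ n, Integrable (fun x => Mx T g n (T x)) μ := fun n =>
    hT.integrable_comp_of_integrable (hMi n)
  have hD : ∀ n x, Mx T g (n + 1) x - Mx T g n (T x) = max (- Mx T g n (T x)) (g x) := by
    intro n x
    show max 0 (g x + Mx T g n (T x)) - Mx T g n (T x) = _
    rw [← max_sub_sub_right]
    congr 1 <;> ring
  have hlim : Tendsto (fun n => ∫ x in unbdd T g, (Mx T g (n + 1) x - Mx T g n (T x)) ∂μ) atTop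
      (𝓝 (∫ x in unbdd T g, g x ∂μ)) := by
    apply tendsto_integral_of_dominated_convergence (fun x => |g x|)
    · intro n
      exact ((hMi (n + 1)).sub (hMTi n)).aestronglyMeasurable.restrict
    · exact hg.abs.integrableOn
    · intro n
      refine Eventually.of_forall fun x => ?_
      rw [hD, Real.norm_eq_abs]
      have h0 := Mx_nonneg (T := T) g n (T x)
      rcases le_total 0 (g x) with h | h
      · rw [max_eq_right (by linarith)]
      · rw [abs_of_nonpos h, abs_of_nonpos (max_le (by linarith) h)]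
        linarith [le_max_right (- Mx T g n (T x)) (g x)]
    · refine (ae_restrict_iff' hE).2 (Eventually.of_forall fun x hx => ?_)
      have hx' : T x ∈ unbdd T g := by
        have : x ∈ T ⁻¹' (unbdd T g) := by rw [unbdd_preimage]; exact hx
        exact this
      obtain ⟨C, hC⟩ := exists_nat_gt (|g x|)
      obtain ⟨n, hn⟩ := hx' C
      apply tendsto_const_nhds.congr'
      filter_upwards [eventually_ge_atTop n] with m hm
      rw [hD, max_eq_right]
      have h1 := Mx_mono (T := T) g (T x) hm
      have h2 := neg_abs_le (g x)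
      simp only at h1
      linarith
  refine ge_of_tendsto' hlim fun n => ?_
  rw [integral_sub (hMi (n + 1)).integrableOn (hMTi n).integrableOn]
  have h1 : ∫ x in unbdd T g, Mx T g n (T x) ∂μ = ∫ x in unbdd T g, Mx T g n x ∂μ := by
    rw [← integral_indicator hE, ← integral_indicator hE]
    have h2 := integral_comp_T hT (g := (unbdd T g).indicator (Mx T g n))
      ((hMi n).indicator hE).aestronglyMeasurable
    rw [← h2]
    apply integral_congr_ae
    refine Eventually.of_forall fun x => ?_
    have h3 : T x ∈ unbdd T g ↔ x ∈ unbdd T g := by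
      have := unbdd_preimage (T := T) g
      rw [Set.ext_iff] at this
      exact this x
    by_cases hx : x ∈ unbdd T g
    · simp only [indicator_of_mem hx, indicator_of_mem (h3.2 hx)]
    · simp only [indicator_of_notMem hx, indicator_of_notMem (fun h => hx (h3.1 h))]
  rw [h1, sub_nonneg]
  exact setIntegral_mono_on (hMi n).integrableOn (hMi (n + 1)).integrableOn hE
    fun x _ => Mx_mono_succ g n x

/-- The upper half of the pointwise ergodic theorem. -/
theorem upper [IsProbabilityMeasure μ] (hT : MeasurePreserving T μ μ) {f : X → ℝ}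
    (hfm : Measurable f) (hf : Integrable f μ) {ε : ℝ} (hε : 0 < ε) :
    ∀ᵐ x ∂μ, ∀ᶠ n : ℕ in atTop,
      S T f n x / n ≤ (μ[f | MeasurableSpace.invariants T]) x + ε := by
  have hle : MeasurableSpace.invariants T ≤ ‹MeasurableSpace X› := MeasurableSpace.invariants_le T
  obtain ⟨F, hF⟩ : ∃ F, F = μ[f | MeasurableSpace.invariants T] := ⟨_, rfl⟩
  have hFs : StronglyMeasurable[MeasurableSpace.invariants T] F := by
    rw [hF]; exact stronglyMeasurable_condExp
  have hFm : Measurable F := (hFs.mono hle).measurable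
  have hFi : Integrable F μ := by rw [hF]; exact integrable_condExp
  have hFT : ∀ x, F (T x) = F x := fun x =>
    congrFun (MeasurableSpace.comp_eq_of_measurable_invariants hFs.measurable) x
  have hFit : ∀ n x, F (T^[n] x) = F x := by
    intro n x
    induction n with
    | zero => rfl
    | succ n ih => rw [Function.iterate_succ_apply', hFT, ih]
  rw [← hF]
  set g : X → ℝ := fun x => f x - F x - ε / 2 with hg
  have hgm : Measurable g := (hfm.sub hFm).sub_const _
  have hgi : Integrable g μ := (hf.sub hFi).sub (integrable_const _)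
  have hE : MeasurableSet (unbdd T g) := unbdd_measurable hT.measurable hgm
  have hEinv : MeasurableSet[MeasurableSpace.invariants T] (unbdd T g) :=
    MeasurableSpace.measurableSet_invariants.2 ⟨hE, unbdd_preimage g⟩
  have h0 := integral_unbdd_nonneg hT hgm hgi
  have h1 : ∫ x in unbdd T g, g x ∂μ = - (ε / 2) * μ.real (unbdd T g) := by
    have e1 : ∫ x in unbdd T g, g x ∂μ =
        ∫ x in unbdd T g, (f x - F x) ∂μ - ∫ x in unbdd T g, (ε / 2) ∂μ :=
      integral_sub (hf.sub hFi).integrableOn (integrable_const _).integrableOn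
    have e2 : ∫ x in unbdd T g, (f x - F x) ∂μ =
        ∫ x in unbdd T g, f x ∂μ - ∫ x in unbdd T g, F x ∂μ :=
      integral_sub hf.integrableOn hFi.integrableOn
    have e3 : ∫ x in unbdd T g, F x ∂μ = ∫ x in unbdd T g, f x ∂μ := by
      rw [hF]; exact setIntegral_condExp hle hf hEinv
    rw [e1, e2, e3, sub_self, setIntegral_const, smul_eq_mul]
    ring
  have h2 : μ.real (unbdd T g) = 0 := by
    rw [h1] at h0
    have h3 : 0 ≤ μ.real (unbdd T g) := measureReal_nonneg
    nlinarith
  have h3 : ∀ᵐ x ∂μ, x ∉ unbdd T g := by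
    rw [measureReal_def, ENNReal.toReal_eq_zero_iff] at h2
    rcases h2 with h2 | h2
    · exact measure_eq_zero_iff_ae_notMem.1 h2
    · exact absurd h2 (measure_ne_top _ _)
  filter_upwards [h3] with x hx
  have hx' : ∃ C : ℕ, ∀ n, Mx T g n x ≤ C := by
    by_contra hcon
    push Not at hcon
    exact hx hcon
  obtain ⟨C, hC⟩ := hx'
  have hS : ∀ n : ℕ, S T f n x ≤ C + n * (F x + ε / 2) := by
    intro n
    have h4 := (S_le_Mx (T := T) g n n le_rfl x).trans (hC n)
    have h5 : S T g n x = S T f n x - n * (F x + ε / 2) := by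
      unfold S
      rw [hg]
      simp only [hFit]
      rw [Finset.sum_sub_distrib, Finset.sum_sub_distrib]
      simp
      ring
    rw [h5] at h4
    linarith
  obtain ⟨N, hN⟩ := exists_nat_gt (2 * C / ε)
  filter_upwards [eventually_ge_atTop (N + 1)] with n hn
  have hn0 : (0 : ℝ) < n := by
    have : 0 < n := by omega
    exact_mod_cast this
  rw [div_le_iff₀ hn0]
  have h6 : (N : ℝ) ≤ n := by exact_mod_cast (by omega : N ≤ n)
  have h7 : 2 * C / ε < n := lt_of_lt_of_le hN h6
  rw [div_lt_iff₀ hε] at h7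
  have := hS n
  nlinarith

/-- The pointwise ergodic theorem. -/
theorem pointwise_of_measurable [IsProbabilityMeasure μ] (hT : MeasurePreserving T μ μ) {f : X → ℝ}
    (hfm : Measurable f) (hf : Integrable f μ) :
    ∀ᵐ x ∂μ, Tendsto (fun n : ℕ => S T f n x / n) atTop
      (𝓝 ((μ[f | MeasurableSpace.invariants T]) x)) := by
  have h1 : ∀ j : ℕ, ∀ᵐ x ∂μ, ∀ᶠ n : ℕ in atTop, S T f n x / n ≤
      (μ[f | MeasurableSpace.invariants T]) x + 1 / ((j : ℝ) + 1) :=
    fun j => upper hT hfm hf (by positivity)
  have h2 : ∀ j : ℕ, ∀ᵐ x ∂μ, ∀ᶠ n : ℕ in atTop, S T (fun y => - f y) n x / n ≤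
      (μ[fun y => - f y | MeasurableSpace.invariants T]) x + 1 / ((j : ℝ) + 1) :=
    fun j => upper hT hfm.neg hf.neg (by positivity)
  have h3 : μ[fun y => - f y | MeasurableSpace.invariants T] =ᵐ[μ]
      - μ[f | MeasurableSpace.invariants T] := condExp_neg f _
  filter_upwards [ae_all_iff.2 h1, ae_all_iff.2 h2, h3] with x hx1 hx2 hx3
  rw [Metric.tendsto_atTop]
  intro ε hε
  obtain ⟨j, hj⟩ := exists_nat_one_div_lt hε
  obtain ⟨N1, hN1⟩ := eventually_atTop.mp (hx1 j)
  obtain ⟨N2, hN2⟩ := eventually_atTop.mp (hx2 j)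
  refine ⟨max N1 N2, fun n hn => ?_⟩
  have h4 := hN1 n (le_trans (le_max_left _ _) hn)
  have h5 := hN2 n (le_trans (le_max_right _ _) hn)
  rw [hx3, Pi.neg_apply] at h5
  have h6 : S T (fun y => - f y) n x / n = - (S T f n x / n) := by
    unfold S
    rw [Finset.sum_neg_distrib]
    ring
  rw [h6] at h5
  rw [Real.dist_eq, abs_lt]
  constructor <;> linarith

omit [MeasurableSpace X] in
lemma S_congr {f g : X → ℝ} {x : X} (h : ∀ n, f (T^[n] x) = g (T^[n] x)) (n : ℕ) :
    S T f n x = S T g n x := Finset.sum_congr rfl fun i _ => h i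

lemma ae_iterate (hT : MeasurePreserving T μ μ) {p : X → Prop} (h : ∀ᵐ x ∂μ, p x) :
    ∀ᵐ x ∂μ, ∀ n : ℕ, p (T^[n] x) :=
  ae_all_iff.2 fun n => (hT.iterate n).quasiMeasurePreserving.ae h

/-- The pointwise ergodic theorem for integrable functions. -/
theorem pointwise [IsProbabilityMeasure μ] (hT : MeasurePreserving T μ μ) {f : X → ℝ}
    (hf : Integrable f μ) :
    ∀ᵐ x ∂μ, Tendsto (fun n : ℕ => S T f n x / n) atTop
      (𝓝 ((μ[f | MeasurableSpace.invariants T]) x)) := by
  obtain ⟨g, hgm, hfg⟩ := hf.1.aemeasurable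
  have hg : Integrable g μ := hf.congr hfg
  filter_upwards [pointwise_of_measurable hT hgm hg, ae_iterate hT hfg,
    condExp_congr_ae (m := MeasurableSpace.invariants T) hfg] with x h1 h2 h3
  rw [h3]
  refine h1.congr fun n => ?_
  rw [S_congr (fun n => (h2 n).symm) n]

end Q68.PET
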